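import Pool.Agent.H60.CM.Basic

/-!
# Small neighbourhoods of the points of the mirror (row LC2 of `cms_modules`)
-/

set_option autoImplicit false

open Set Function MeasureTheory Filter Topology
open scoped Manifold ContDiff Matrix
open Pool.Agent.H60.CM

namespace Pool.Agent.H73.CM

/-- the positive part of a monotone function in a convex set is connected -/
theorem core {E : Type} [NormedAddCommGroup E] [NormedSpace ℝ E] (A : Set E) (hA : Convex ℝ A)
    (l : E →L[ℝ] ℝ) (v : E) (hv : l v = 1) (a b : ℝ) (hab : a < b) (g : E → ℝ)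
    (up : ∀ z ∈ A, ∀ t : ℝ, 0 ≤ t → l z + t < b → z + t • v ∈ A) (lt : ∀ z ∈ A, l z < b)
    (mono : ∀ z ∈ A, ∀ t : ℝ, 0 ≤ t → z + t • v ∈ A → g z ≤ g (z + t • v))
    (top : ∀ z ∈ A, a ≤ l z → 0 < g z) : IsPreconnected {z | z ∈ A ∧ 0 < g z} := by
  have hT : Convex ℝ {z | z ∈ A ∧ a ≤ l z} := hA.inter (convex_halfSpace_ge l.isLinear a)
  have key : ∀ z ∈ A, ∃ t : ℝ, 0 ≤ t ∧ z + t • v ∈ A ∧ a ≤ l (z + t • v) := by
    intro z hz
    have hlt := lt z hz
    by_cases h : a ≤ l z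
    · exact ⟨0, le_rfl, by simpa using hz, by simpa using h⟩
    · push Not at h
      refine ⟨a - l z, by linarith, up z hz _ (by linarith) (by linarith), ?_⟩
      rw [map_add, map_smul, hv]
      simp
  rcases eq_empty_or_nonempty {z | z ∈ A ∧ 0 < g z} with h | ⟨z0, hz0⟩
  · rw [h]
    exact isPreconnected_empty
  obtain ⟨t0, ht0, hA0, ha0⟩ := key z0 hz0.1
  refine isPreconnected_of_forall (z0 + t0 • v) fun z hz => ?_
  obtain ⟨t, ht, hAt, hat⟩ := key z hz.1
  refine ⟨{z | z ∈ A ∧ a ≤ l z} ∪ segment ℝ z (z + t • v), ?_, Or.inl ⟨hA0, ha0⟩,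
    Or.inr (left_mem_segment ℝ _ _), ?_⟩
  · rintro w (hw | hw)
    · exact ⟨hw.1, top w hw.1 hw.2⟩
    · have hwA : w ∈ A := hA.segment_subset hz.1 hAt hw
      obtain ⟨α, β, hα, hβ, hαβ, rfl⟩ := hw
      have e : α • z + β • (z + t • v) = z + (β * t) • v := by
        rw [smul_add, ← add_assoc, ← add_smul, hαβ, one_smul, smul_smul]
      rw [e] at hwA ⊢
      exact ⟨hwA, lt_of_lt_of_le hz.2 (mono z hz.1 _ (mul_nonneg hβ ht) hwA)⟩
  · exact IsPreconnected.union (z + t • v) ⟨hAt, hat⟩ (right_mem_segment ℝ _ _)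
      hT.isPreconnected (convex_segment _ _).isPreconnected

theorem ee_same (i : Fin 2) : (ee i) i = 1 := by simp [ee]

theorem ee_ne {i j : Fin 2} (h : i ≠ j) : (ee i) j = 0 := by simp [ee, h.symm]

theorem norm_ee (i : Fin 2) : ‖ee i‖ = 1 := by simp [ee]

theorem fin_a : ∀ i j : Fin 2, i ≠ j → i = 1 → j = 0 := by decide

theorem fin_b : ∀ i : Fin 2, i ≠ 1 → i = 0 := by decide

theorem fin_c : ∀ i : Fin 2, ∃ j : Fin 2, i ≠ j := by decide

theorem fin_d : ∀ i j k : Fin 2, i ≠ j → k = i ∨ k = j := by decide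

/-- the decomposition of a vector -/
theorem dec {i j : Fin 2} (h : i ≠ j) (z : E2) : z = z i • ee i + z j • ee j := by
  ext k
  rcases fin_d i j k h with rfl | rfl
  · simp [ee_same, ee_ne h.symm]
  · simp [ee_same, ee_ne h]

theorem norm_dec {i j : Fin 2} (h : i ≠ j) (z : E2) : ‖z‖ ≤ |z i| + |z j| := by
  calc ‖z‖ = ‖z i • ee i + z j • ee j‖ := by rw [← dec h z]
    _ ≤ ‖z i • ee i‖ + ‖z j • ee j‖ := norm_add_le _ _
    _ = |z i| + |z j| := by rw [norm_smul, norm_smul, norm_ee, norm_ee, Real.norm_eq_abs,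
      Real.norm_eq_abs, mul_one, mul_one]

/-- the boxes -/
def Box (y : E2) (i j : Fin 2) (δ δ' : ℝ) : Set E2 := {z | |z i - y i| < δ ∧ |z j - y j| < δ'}

theorem Box_open (y : E2) (i j : Fin 2) (δ δ' : ℝ) : IsOpen (Box y i j δ δ') := by
  have h1 : Continuous fun z : E2 => |z i - y i| := by fun_prop
  have h2 : Continuous fun z : E2 => |z j - y j| := by fun_prop
  exact (isOpen_lt h1 continuous_const).inter (isOpen_lt h2 continuous_const)

theorem Box_convex (y : E2) (i j : Fin 2) (δ δ' : ℝ) : Convex ℝ (Box y i j δ δ') := by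
  have h : ∀ (k : Fin 2) (d : ℝ), Convex ℝ {z : E2 | |z k - y k| < d} := by
    intro k d
    have e : {z : E2 | |z k - y k| < d} = (fun z : E2 => z k) ⁻¹' (Ioo (y k - d) (y k + d)) := by
      ext z
      simp only [Set.mem_ofPred_eq, mem_preimage, mem_Ioo, abs_lt]
      constructor
      · rintro ⟨a, b⟩
        exact ⟨by linarith, by linarith⟩
      · rintro ⟨a, b⟩
        exact ⟨by linarith, by linarith⟩
    rw [e]
    exact (convex_Ioo _ _).linear_preimage (EuclideanSpace.proj (𝕜 := ℝ) k).toLinearMap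
  exact (h i δ).inter (h j δ')

theorem half_convex : Convex ℝ {z : E2 | 0 < z 0} :=
  (convex_Ioi (0 : ℝ)).linear_preimage (EuclideanSpace.proj (𝕜 := ℝ) (0 : Fin 2)).toLinearMap

/-- one side in a box -/
theorem side (g : E2 → ℝ) (M : E2 →L[ℝ] ℝ) (y : E2) (hy0 : 0 ≤ y 0) (hy : g y = 0)
    (i j : Fin 2) (hij : i ≠ j) (ε : ℝ) (hε : ε = 1 ∨ ε = -1) (c m K δ δ' ρ : ℝ) (hc : 0 ≤ c)
    (hcm : c < m) (hm : m ≤ ε * M (ee i)) (hK : |M (ee j)| ≤ K) (hδ : 0 < δ) (hδ' : 0 < δ')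
    (hcl : ∀ z z' : E2, 0 ≤ z 0 → 0 ≤ z' 0 → ‖z - y‖ < ρ → ‖z' - y‖ < ρ →
      |g z - g z' - M (z - z')| ≤ c * ‖z - z'‖)
    (hρ : δ + δ' ≤ ρ) (hsm : (K + c) * δ' < (m - c) * (δ / 2)) (h01 : i = 1 ∨ δ ≤ y 0) :
    IsPreconnected {z | z ∈ Box y i j δ δ' ∩ {z : E2 | 0 < z 0} ∧ 0 < g z} := by
  have hε2 : ε * ε = 1 := by rcases hε with rfl | rfl <;> norm_num
  have lz : ∀ z : E2, (ε • (EuclideanSpace.proj (𝕜 := ℝ) i : E2 →L[ℝ] ℝ)) z = ε * z i :=
    fun z => rfl
  have hball : ∀ z ∈ Box y i j δ δ', ‖z - y‖ < ρ := by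
    intro z hz
    have h := norm_dec hij (z - y)
    have h1 := hz.1
    have h2 := hz.2
    simp only [PiLp.sub_apply] at h
    linarith
  have hy' : ‖y - y‖ < ρ := by
    rw [sub_self, norm_zero]
    linarith
  refine core (Box y i j δ δ' ∩ {z : E2 | 0 < z 0}) ((Box_convex _ _ _ _ _).inter half_convex)
    (ε • (EuclideanSpace.proj (𝕜 := ℝ) i : E2 →L[ℝ] ℝ)) (ε • ee i) ?_ (ε * y i + δ / 2)
    (ε * y i + δ) (by linarith) g ?_ ?_ ?_ ?_
  · rw [lz]
    simp [ee_same, hε2]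
  · intro z hz t ht hlt
    obtain ⟨⟨hz1, hz2⟩, hz3⟩ := hz
    have ci : (z + t • ε • ee i) i = z i + t * ε := by simp [ee_same]
    have cj : (z + t • ε • ee i) j = z j := by simp [ee_ne hij]
    rw [lz] at hlt
    have h1 : |(z + t • ε • ee i) i - y i| < δ := by
      rw [ci, abs_lt]
      rw [abs_lt] at hz1
      rcases hε with rfl | rfl
      · constructor <;> linarith [hz1.1, hz1.2]
      · constructor <;> linarith [hz1.1, hz1.2]
    refine ⟨⟨h1, ?_⟩, ?_⟩
    · rw [cj]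
      exact hz2
    · rcases h01 with h | h
      · subst h
        have hj : j = 0 := fin_a _ _ hij rfl
        subst hj
        show 0 < (z + t • ε • ee 1) 0
        rw [cj]
        exact hz3
      · by_cases h0 : i = 1
        · subst h0
          have hj : j = 0 := fin_a _ _ hij rfl
          subst hj
          show 0 < (z + t • ε • ee 1) 0
          rw [cj]
          exact hz3
        · have hi : i = 0 := fin_b _ h0
          subst hi
          rw [abs_lt] at h1
          show 0 < (z + t • ε • ee 0) 0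
          linarith [h1.1]
  · intro z hz
    obtain ⟨⟨hz1, hz2⟩, hz3⟩ := hz
    rw [lz]
    rw [abs_lt] at hz1
    rcases hε with rfl | rfl
    · linarith [hz1.1, hz1.2]
    · linarith [hz1.1, hz1.2]
  · intro z hz t ht hz'
    have h := hcl (z + t • ε • ee i) z hz'.2.le hz.2.le (hball _ hz'.1) (hball _ hz.1)
    have e : z + t • ε • ee i - z = t • ε • ee i := by abel
    have n : ‖t • ε • ee i‖ = t := by
      rw [norm_smul, norm_smul, norm_ee, Real.norm_eq_abs, Real.norm_eq_abs, abs_of_nonneg ht]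
      rcases hε with rfl | rfl <;> simp
    rw [e, n, map_smul, map_smul, smul_eq_mul, smul_eq_mul, abs_le] at h
    have h2 : 0 ≤ t * (ε * M (ee i) - c) := mul_nonneg ht (by linarith)
    nlinarith [h.1]
  · intro z hz hl
    rw [lz] at hl
    have h := hcl z y hz.2.le hy0 (hball _ hz.1) hy'
    have hn := norm_dec hij (z - y)
    have hd := dec hij (z - y)
    have hM : M (z - y) = (z i - y i) * M (ee i) + (z j - y j) * M (ee j) := by
      rw [hd, map_add, map_smul, map_smul, smul_eq_mul, smul_eq_mul]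
      rfl
    simp only [PiLp.sub_apply] at hn
    rw [hM, hy, sub_zero, abs_le] at h
    obtain ⟨⟨hz1, hz2⟩, hz3⟩ := hz
    set τ := ε * (z i - y i) with hτ
    have hτ1 : δ / 2 ≤ τ := by
      rw [hτ]
      linarith
    have hτ2 : |z i - y i| = τ := by
      rcases hε with rfl | rfl
      · rw [abs_of_nonneg (by linarith)]
        linarith
      · rw [abs_of_nonpos (by linarith)]
        linarith
    have h3 : (z i - y i) * M (ee i) = τ * (ε * M (ee i)) := by
      rw [hτ]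
      linear_combination (-(z i - y i) * M (ee i)) * hε2
    have h4 : τ * m ≤ (z i - y i) * M (ee i) := by
      rw [h3]
      exact mul_le_mul_of_nonneg_left hm (by linarith)
    have h5 : |(z j - y j) * M (ee j)| ≤ δ' * K := by
      rw [abs_mul]
      exact mul_le_mul hz2.le hK (abs_nonneg _) hδ'.le
    rw [abs_le] at h5
    have h6 : c * ‖z - y‖ ≤ c * (τ + δ') := by
      refine mul_le_mul_of_nonneg_left ?_ hc
      linarith
    have h7 : (m - c) * (δ / 2) ≤ (m - c) * τ := mul_le_mul_of_nonneg_left hτ1 (by linarith)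
    nlinarith [h.1, h5.1]

/-- small neighbourhoods in the half plane -/
theorem nbhd (g : E2 → ℝ) (M : E2 →L[ℝ] ℝ) (y : E2) (hy0 : 0 ≤ y 0) (hy : g y = 0)
    (i : Fin 2) (hi : M (ee i) ≠ 0) (h01 : i = 1 ∨ 0 < y 0) (ρ : ℝ) (hρ : 0 < ρ)
    (hcl : ∀ z z' : E2, 0 ≤ z 0 → 0 ≤ z' 0 → ‖z - y‖ < ρ → ‖z' - y‖ < ρ →
      |g z - g z' - M (z - z')| ≤ |M (ee i)| / 2 * ‖z - z'‖) :
    ∃ B : Set E2, IsOpen B ∧ y ∈ B ∧ (∀ z ∈ B, ‖z - y‖ < ρ) ∧
      IsPreconnected {z | z ∈ B ∩ {z : E2 | 0 < z 0} ∧ 0 < g z} ∧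
      IsPreconnected {z | z ∈ B ∩ {z : E2 | 0 < z 0} ∧ g z < 0} := by
  obtain ⟨j, hij⟩ := fin_c i
  have hm : 0 < |M (ee i)| := abs_pos.2 hi
  set m := |M (ee i)| with hmdef
  set K := |M (ee j)| with hKdef
  have hK : 0 ≤ K := abs_nonneg _
  obtain ⟨δ, hδ, hδρ, hδy⟩ : ∃ δ : ℝ, 0 < δ ∧ δ ≤ ρ / 2 ∧ (i = 1 ∨ δ ≤ y 0) := by
    rcases h01 with h | h
    · exact ⟨ρ / 2, by linarith, le_rfl, Or.inl h⟩
    · exact ⟨min (ρ / 2) (y 0), lt_min (by linarith) h, min_le_left _ _,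
        Or.inr (min_le_right _ _)⟩
  set q : ℝ := m / 2 * (δ / 2) / (K + m / 2 + 1) with hq
  have hq0 : 0 < q := by positivity
  have hq1 : q * (K + m / 2 + 1) = m / 2 * (δ / 2) := by
    rw [hq]
    field_simp
  set δ' := min (ρ / 2) q with hδ'
  have hδ'0 : 0 < δ' := lt_min (by linarith) hq0
  have hδ'q : δ' ≤ q := min_le_right _ _
  have hδ'ρ : δ' ≤ ρ / 2 := min_le_left _ _
  have hsm : (K + m / 2) * δ' < (m - m / 2) * (δ / 2) := by
    have h1 : (K + m / 2) * δ' ≤ (K + m / 2) * q := mul_le_mul_of_nonneg_left hδ'q (by positivity)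
    nlinarith
  obtain ⟨ε, hε, hεm⟩ : ∃ ε : ℝ, (ε = 1 ∨ ε = -1) ∧ ε * M (ee i) = m := by
    rcases le_or_gt 0 (M (ee i)) with h | h
    · exact ⟨1, Or.inl rfl, by rw [hmdef, abs_of_nonneg h, one_mul]⟩
    · exact ⟨-1, Or.inr rfl, by rw [hmdef, abs_of_neg h]; ring⟩
  refine ⟨Box y i j δ δ', Box_open _ _ _ _ _, ⟨by simpa using hδ, by simpa using hδ'0⟩, ?_, ?_, ?_⟩
  · intro z hz
    have h := norm_dec hij (z - y)
    have h1 := hz.1
    have h2 := hz.2
    simp only [PiLp.sub_apply] at h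
    linarith
  · exact side g M y hy0 hy i j hij ε hε (m / 2) m K δ δ' ρ (by positivity) (by linarith)
      hεm.ge le_rfl hδ hδ'0 hcl (by linarith) hsm hδy
  · have h := side (fun z => -g z) (-M) y hy0 (by simp [hy]) i j hij (-ε)
      (by rcases hε with h | h <;> simp [h]) (m / 2) m K δ δ' ρ (by positivity) (by linarith)
      (by simp [hεm]) (by simp [hKdef]) hδ hδ'0 ?_ (by linarith) hsm hδy
    · have e : {z | z ∈ Box y i j δ δ' ∩ {z : E2 | 0 < z 0} ∧ g z < 0} =
          {z | z ∈ Box y i j δ δ' ∩ {z : E2 | 0 < z 0} ∧ 0 < -g z} := by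
        ext z
        simp
      rw [e]
      exact h
    · intro z z' h1 h2 h3 h4
      have h5 := hcl z z' h1 h2 h3 h4
      have e : -g z - -g z' - (-M) (z - z') = -(g z - g z' - M (z - z')) := by
        simp only [_root_.neg_apply]
        ring
      rw [e, abs_neg]
      exact h5

/-- the local estimate in the preferred chart -/
theorem est (D : Dat) (f : D.S → ℝ) (hf : D.Sm f) (p : D.S) (c : ℝ) (hc : 0 < c) :
    ∃ (M : E2 →L[ℝ] ℝ) (ρ : ℝ), 0 < ρ ∧ (∀ i, M (ee i) = dd f p i) ∧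
      (∀ z : E2, 0 ≤ z 0 → ‖z - extChartAt (𝓡∂ 2) p p‖ < ρ →
        z ∈ (extChartAt (𝓡∂ 2) p).target) ∧
      ∀ z z' : E2, 0 ≤ z 0 → 0 ≤ z' 0 → ‖z - extChartAt (𝓡∂ 2) p p‖ < ρ →
        ‖z' - extChartAt (𝓡∂ 2) p p‖ < ρ →
        |f ((extChartAt (𝓡∂ 2) p).symm z) - f ((extChartAt (𝓡∂ 2) p).symm z') - M (z - z')| ≤
          c * ‖z - z'‖ := by
  set e := extChartAt (𝓡∂ 2) p with he
  set y := e p with hy
  set g : E2 → ℝ := f ∘ e.symm with hg
  have hyt : y ∈ e.target := mem_extChartAt_target p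
  have hgs : ContDiffOn ℝ ∞ g e.target := by
    have h1 : ContMDiffOn 𝓘(ℝ, E2) 𝓘(ℝ, ℝ) ∞ g e.target :=
      hf.comp_contMDiffOn (contMDiffOn_extChartAt_symm p)
    exact contMDiffOn_iff_contDiffOn.1 h1
  have hu : UniqueDiffOn ℝ e.target := uniqueDiffOn_extChartAt_target p
  have hcont : ContinuousOn (fderivWithin ℝ g e.target) e.target :=
    hgs.continuousOn_fderivWithin hu (by simp)
  have hran : range (𝓡∂ 2) = {z : E2 | 0 ≤ z 0} := range_modelWithCornersEuclideanHalfSpace 2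
  have htn : e.target ∈ 𝓝[{z : E2 | 0 ≤ z 0}] y := by
    rw [← hran]
    exact extChartAt_target_mem_nhdsWithin p
  have hev : ∀ᶠ z in 𝓝[{z : E2 | 0 ≤ z 0}] y, z ∈ e.target ∧
      ‖fderivWithin ℝ g e.target z - fderivWithin ℝ g e.target y‖ ≤ c := by
    have h1 : ∀ᶠ z in 𝓝[e.target] y,
        ‖fderivWithin ℝ g e.target z - fderivWithin ℝ g e.target y‖ ≤ c := by
      have h2 := Metric.tendsto_nhds.1 (hcont y hyt) c hc
      filter_upwards [h2] with z hz
      rw [dist_eq_norm] at hz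
      exact hz.le
    have h3 : 𝓝[{z : E2 | 0 ≤ z 0}] y ≤ 𝓝[e.target] y := nhdsWithin_le_of_mem htn
    exact (show ∀ᶠ z in 𝓝[{z : E2 | 0 ≤ z 0}] y, z ∈ e.target from htn).and (h3 h1)
  rw [eventually_nhdsWithin_iff, Metric.eventually_nhds_iff] at hev
  obtain ⟨ρ, hρ, hb⟩ := hev
  have hdiff : ∀ z ∈ e.target, HasFDerivWithinAt g (fderivWithin ℝ g e.target z) e.target z :=
    fun z hz => ((hgs.differentiableOn (by simp)) z hz).hasFDerivWithinAt
  refine ⟨fderivWithin ℝ g e.target y, ρ, hρ, ?_, ?_, ?_⟩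
  · intro i
    rw [dd_eq (Dat.Sm.md D hf p)]
    have h1 : HasFDerivWithinAt g (fderivWithin ℝ g e.target y) (range (𝓡∂ 2)) y :=
      (hdiff y hyt).mono_of_mem_nhdsWithin (extChartAt_target_mem_nhdsWithin p)
    rw [← h1.fderivWithin (uniq p)]
  · intro z hz hzy
    exact (hb (by rwa [dist_eq_norm]) hz).1
  · intro z z' hz hz' hzy hzy'
    have hC : Convex ℝ (Metric.ball y ρ ∩ {z : E2 | 0 ≤ z 0}) :=
      (convex_ball _ _).inter
        ((convex_Ici (0 : ℝ)).linear_preimage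
          (EuclideanSpace.proj (𝕜 := ℝ) (0 : Fin 2)).toLinearMap)
    have hsub : Metric.ball y ρ ∩ {z : E2 | 0 ≤ z 0} ⊆ e.target := fun w hw => (hb hw.1 hw.2).1
    have h := hC.norm_image_sub_le_of_norm_hasFDerivWithin_le' (f := g)
      (fun w hw => (hdiff w (hsub hw)).mono hsub) (fun w hw => (hb hw.1 hw.2).2)
      (x := z') (y := z) ⟨by rwa [Metric.mem_ball, dist_eq_norm], hz'⟩
      ⟨by rwa [Metric.mem_ball, dist_eq_norm], hz⟩
    exact h

/-- some direction is not tangent to the mirror -/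
theorem dir (D : Dat) (h3 : T_BCV) (p : D.S) (hN : D.N p 1 = 0) (hx1 : D.x p 1 = 0) :
    ∃ i : Fin 2, dd D.x p i 1 ≠ 0 ∧ (i = 1 ∨ 0 < (extChartAt (𝓡∂ 2) p p) 0) := by
  have hn0 := D.cmc.normal p 0
  have hn1 := D.cmc.normal p 1
  have hu := D.cmc.unit p
  have himm := D.cmc.imm p
  rcases D.int_or_bd p with hp | hp
  · have h0 : 0 < (extChartAt (𝓡∂ 2) p p) 0 := by
      have h : extChartAt (𝓡∂ 2) p p ∈ interior (range (𝓡∂ 2)) := hp
      rw [interior_range_modelWithCornersEuclideanHalfSpace] at h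
      exact h
    by_contra hcon
    push Not at hcon
    have a0 : dd D.x p 0 1 = 0 := by
      by_contra h
      exact absurd h0 (not_lt.2 (hcon 0 h).2)
    have a1 : dd D.x p 1 1 = 0 := by
      by_contra h
      exact absurd h0 (not_lt.2 (hcon 1 h).2)
    set A := dd D.x p 0
    set B := dd D.x p 1
    set n := D.N p
    rw [Matrix.vec3_dotProduct, hN, zero_mul, add_zero] at hn0 hn1
    rw [Matrix.vec3_dotProduct, hN, zero_mul, add_zero] at hu
    apply himm
    have hc : A 2 * B 0 - A 0 * B 2 = 0 := by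
      by_contra hne
      have e0 : n 0 * (A 2 * B 0 - A 0 * B 2) = 0 := by
        linear_combination A 2 * hn1 - B 2 * hn0
      have e2 : n 2 * (A 2 * B 0 - A 0 * B 2) = 0 := by
        linear_combination B 0 * hn0 - A 0 * hn1
      have f0 : n 0 = 0 := (mul_eq_zero.1 e0).resolve_right hne
      have f2 : n 2 = 0 := (mul_eq_zero.1 e2).resolve_right hne
      rw [f0, f2] at hu
      norm_num at hu
    rw [cross_apply, a0, a1]
    ext k
    fin_cases k
    · simp
    · simpa using hc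
    · simp
  · refine ⟨1, ?_, Or.inl rfl⟩
    obtain ⟨γ, hγ0, hγb, hγ⟩ := h3 D p hp
    have hcirc : ∀ q ∈ D.bd, D.x q 2 = 0 ∧ D.x q ⬝ᵥ D.x q = D.r ^ 2 := fun q hq =>
      D.cmc.circle.mapsTo hq
    have hder := hγ V3 D.x D.smx
    have hd : ∀ k, HasDerivAt (fun t => D.x (γ t) k) (dd D.x p 1 k) 0 := fun k =>
      (hasDerivAt_pi.1 hder) k
    have b2 : dd D.x p 1 2 = 0 := by
      have h1 : (fun t => D.x (γ t) 2) =ᶠ[𝓝 0] fun _ => (0 : ℝ) := by
        filter_upwards [hγb] with t ht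
        exact (hcirc _ ht).1
      have h2 := ((hd 2).congr_of_eventuallyEq h1.symm)
      exact h2.unique (hasDerivAt_const _ _)
    have hpp := hcirc p hp
    have x0 : D.x p 0 ≠ 0 := by
      intro h
      have h1 := hpp.2
      rw [Matrix.vec3_dotProduct, h, hx1, hpp.1] at h1
      have h2 := D.cmc.r_pos
      have h3 : 0 < D.r ^ 2 := by positivity
      linarith
    have b0 : dd D.x p 1 0 = 0 := by
      have h1 : (fun t => D.x (γ t) 0 * D.x (γ t) 0 + D.x (γ t) 1 * D.x (γ t) 1 +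
          D.x (γ t) 2 * D.x (γ t) 2) =ᶠ[𝓝 0] fun _ => D.r ^ 2 := by
        filter_upwards [hγb] with t ht
        rw [← (hcirc _ ht).2, Matrix.vec3_dotProduct]
      have h2 := (((hd 0).mul (hd 0)).add ((hd 1).mul (hd 1))).add ((hd 2).mul (hd 2))
      have h3 := (HasDerivAt.congr_of_eventuallyEq h2 h1.symm).unique (hasDerivAt_const _ _)
      rw [hγ0, hx1, b2] at h3
      have h4 : D.x p 0 * dd D.x p 1 0 = 0 := by linarith
      exact (mul_eq_zero.1 h4).resolve_left x0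
    intro b1
    apply himm
    have hB : dd D.x p 1 = 0 := by
      ext k
      fin_cases k
      · exact b0
      · exact b1
      · exact b2
    rw [hB]
    simp

theorem pf_LC2 (h1 : T_ULI) (h2 : T_SGN) (h3 : T_BCV) (_h4 : T_BNZ) : T_LC2 := by
  intro D τ hττ hx p U hp hU hpU
  have hrot : ∀ v : V3, rot 0 v = v := by
    intro v
    ext k
    fin_cases k <;> simp [rot]
  have hN : D.N p 1 = 0 := by
    have h := h2 D τ 0 (fun q => by rw [hx, hrot]) p
    rw [hrot, hp] at h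
    have h' := congrFun h 1
    simp only [mir, Matrix.cons_val_one, Matrix.cons_val_zero] at h'
    linarith
  have hx1 : D.x p 1 = 0 := by
    have h := hx p
    rw [hp] at h
    have h' := congrFun h 1
    simp only [mir, Matrix.cons_val_one, Matrix.cons_val_zero] at h'
    linarith
  obtain ⟨i, hi, h01⟩ := dir D h3 p hN hx1
  have hf : D.Sm (fun q => D.x q 1) := Dat.Sm.coord D D.smx 1
  have hdi : dd (fun q => D.x q 1) p i ≠ 0 := by
    rw [dd_coord (Dat.Sm.md D D.smx p)]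
    exact hi
  obtain ⟨M, ρ1, hρ1, hM, htar, hcl⟩ := est D (fun q => D.x q 1) hf p
    (|dd (fun q => D.x q 1) p i| / 2) (by positivity)
  obtain ⟨U0, hU0, hpU0, hinj⟩ := h1 D p
  set e := extChartAt (𝓡∂ 2) p with he
  set y := e p with hy
  have hyt : y ∈ e.target := mem_extChartAt_target p
  have hey : e.symm y = p := extChartAt_to_inv p
  have hran : range (𝓡∂ 2) = {z : E2 | 0 ≤ z 0} := range_modelWithCornersEuclideanHalfSpace 2
  have htr : ∀ z ∈ e.target, 0 ≤ z 0 := by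
    intro z hz
    have h : z ∈ range (𝓡∂ 2) := extChartAt_target_subset_range p hz
    rw [hran] at h
    exact h
  have hV : e.symm ⁻¹' (U ∩ U0 ∩ τ ⁻¹' U0) ∈ 𝓝 y := by
    have hc : ContinuousAt e.symm y := continuousAt_extChartAt_symm p
    apply hc
    rw [hey]
    refine ((hU.inter hU0).inter (hU0.preimage τ.continuous)).mem_nhds ⟨⟨hpU, hpU0⟩, ?_⟩
    rw [mem_preimage, hp]
    exact hpU0
  obtain ⟨ρ2, hρ2, hb2⟩ := Metric.mem_nhds_iff.1 hV
  obtain ⟨B, hB, hyB, hBρ, hp1, hp2⟩ := nbhd (fun z => D.x (e.symm z) 1) M y (htr y hyt)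
    (by rw [hey]; exact hx1) i (by rw [hM]; exact hdi) h01 (min ρ1 ρ2) (lt_min hρ1 hρ2)
    (fun z z' hz hz' hzy hzy' => by
      rw [hM]
      exact hcl z z' hz hz' (lt_of_lt_of_le hzy (min_le_left _ _))
        (lt_of_lt_of_le hzy' (min_le_left _ _)))
  have hWV : ∀ q ∈ e.source ∩ e ⁻¹' B, q ∈ U ∩ U0 ∩ τ ⁻¹' U0 := by
    intro q hq
    have h5 : e.symm (e q) ∈ U ∩ U0 ∩ τ ⁻¹' U0 := by
      apply hb2
      rw [Metric.mem_ball, dist_eq_norm]
      exact lt_of_lt_of_le (hBρ _ hq.2) (min_le_right _ _)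
    rwa [e.left_inv hq.1] at h5
  have hint : ∀ q ∈ e.source, (q ∈ D.int ↔ 0 < (e q) 0) := by
    intro q hq
    have hs : q ∈ (chartAt (EuclideanHalfSpace 2) p).source := by
      rw [← extChartAt_source (𝓡∂ 2) p]
      exact hq
    have h5 : q ∈ D.int ↔ e q ∈ interior e.target :=
      (𝓡∂ 2).isInteriorPoint_iff_of_mem_atlas (n := ∞) (by simp) (chart_mem_atlas _ p) hs
    rw [h5]
    constructor
    · intro h
      have h6 : e q ∈ interior (range (𝓡∂ 2)) :=
        OpenPartialHomeomorph.interior_extend_target_subset_interior_range _ h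
      rw [interior_range_modelWithCornersEuclideanHalfSpace] at h6
      exact h6
    · intro h
      have h6 : e q ∈ interior (range (𝓡∂ 2)) := by
        rw [interior_range_modelWithCornersEuclideanHalfSpace]
        exact h
      exact OpenPartialHomeomorph.mem_interior_extend_target _
        ((chartAt (EuclideanHalfSpace 2) p).map_source hs) h6
  have hcs : ContinuousOn e.symm e.target := continuousOn_extChartAt_symm p
  have htB : ∀ z ∈ B, 0 < z 0 → z ∈ e.target := fun z hz h0 =>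
    htar z h0.le (lt_of_lt_of_le (hBρ _ hz) (min_le_left _ _))
  refine ⟨e.source ∩ e ⁻¹' B, ?_, ⟨mem_extChartAt_source p, hyB⟩, fun q hq => (hWV q hq).1.1,
    ?_, ?_, ?_⟩
  · rw [he, extChartAt_source]
    exact isOpen_extChartAt_preimage p hB
  · have h5 : {q | q ∈ e.source ∩ e ⁻¹' B ∧ q ∈ D.int ∧ 0 < D.x q 1} =
        e.symm '' {z | z ∈ B ∩ {z : E2 | 0 < z 0} ∧ 0 < D.x (e.symm z) 1} := by
      ext q
      constructor
      · rintro ⟨⟨ha, hb⟩, hc, hd⟩
        refine ⟨e q, ⟨⟨hb, (hint q ha).1 hc⟩, ?_⟩, e.left_inv ha⟩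
        rw [e.left_inv ha]
        exact hd
      · rintro ⟨z, ⟨⟨ha, hb⟩, hc⟩, rfl⟩
        have ht := htB z ha hb
        have hs := e.map_target ht
        refine ⟨⟨hs, ?_⟩, ?_, hc⟩
        · rw [mem_preimage, e.right_inv ht]
          exact ha
        · rw [hint _ hs, e.right_inv ht]
          exact hb
    rw [h5]
    exact hp1.image _ (hcs.mono fun z hz => htB z hz.1.1 hz.1.2)
  · have h5 : {q | q ∈ e.source ∩ e ⁻¹' B ∧ q ∈ D.int ∧ D.x q 1 < 0} =
        e.symm '' {z | z ∈ B ∩ {z : E2 | 0 < z 0} ∧ D.x (e.symm z) 1 < 0} := by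
      ext q
      constructor
      · rintro ⟨⟨ha, hb⟩, hc, hd⟩
        refine ⟨e q, ⟨⟨hb, (hint q ha).1 hc⟩, ?_⟩, e.left_inv ha⟩
        rw [e.left_inv ha]
        exact hd
      · rintro ⟨z, ⟨⟨ha, hb⟩, hc⟩, rfl⟩
        have ht := htB z ha hb
        have hs := e.map_target ht
        refine ⟨⟨hs, ?_⟩, ?_, hc⟩
        · rw [mem_preimage, e.right_inv ht]
          exact ha
        · rw [hint _ hs, e.right_inv ht]
          exact hb
    rw [h5]
    exact hp2.image _ (hcs.mono fun z hz => htB z hz.1.1 hz.1.2)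
  · intro q hq hq1
    have h5 := hWV q hq
    apply hinj h5.2 h5.1.2
    rw [hx]
    ext k
    fin_cases k
    · simp [mir]
    · simp [mir, hq1]
    · simp [mir]

end Pool.Agent.H73.CM
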