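import Pool.Agent.H57.CM.Targets

/-!
# Relative local completions of lexicographic products: row RZL
-/

set_option autoImplicit false

namespace Pool.Agent.H73.CM

open Pool.Agent.H68.BP Pool.Agent.H58.SF Pool.Agent.H53.NR
open Pool.Agent.H57.AR (tp ty Ty)
open Pool.Agent.H72.CH
open Pool.Agent.H57.CM

variable {V₁ V₂ : Type}

private theorem llv_iff {m₁ m₂ : ℕ} {lv₁ : V₁ → V₁ → ℕ} {lv₂ : V₂ → V₂ → ℕ}
    (h1 : Lev m₁ lv₁) (_h2 : Lev m₂ lv₂) (x y : V₁ × V₂) :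
    m₁ ≤ llv m₁ lv₁ lv₂ x y ↔ x.1 = y.1 := by
  unfold llv
  by_cases h : x.1 = y.1
  · rw [if_pos h]
    exact ⟨fun _ => h, fun _ => Nat.le_add_right _ _⟩
  · rw [if_neg h]
    exact ⟨fun hh => absurd (h1.eq _ _ (le_antisymm (h1.pl.le _ _) hh)) h, fun hh => absurd hh h⟩

private theorem llv_min {m₁ : ℕ} {lv₁ : V₁ → V₁ → ℕ} {lv₂ : V₂ → V₂ → ℕ}
    (h1 : Lev m₁ lv₁) (x y : V₁ × V₂) :
    min (llv m₁ lv₁ lv₂ x y) m₁ = lv₁ x.1 y.1 := by
  unfold llv
  by_cases h : x.1 = y.1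
  · rw [if_pos h, h, h1.pl.self]
    exact min_eq_right (Nat.le_add_right _ _)
  · rw [if_neg h]
    exact min_eq_left (h1.pl.le _ _)

private theorem llv_eq {m₁ : ℕ} {lv₁ : V₁ → V₁ → ℕ} {lv₂ : V₂ → V₂ → ℕ} {x y : V₁ × V₂}
    (h : x.1 = y.1) : llv m₁ lv₁ lv₂ x y = m₁ + lv₂ x.2 y.2 := by
  unfold llv
  rw [if_pos h]

private theorem llv_ne {m₁ : ℕ} {lv₁ : V₁ → V₁ → ℕ} {lv₂ : V₂ → V₂ → ℕ} {x y : V₁ × V₂}
    (h : ¬ x.1 = y.1) : llv m₁ lv₁ lv₂ x y = lv₁ x.1 y.1 := by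
  unfold llv
  rw [if_neg h]

private theorem eq_tp {V J : Type} {ρ : Sig} {𝔹 : Str ρ V} {u v : J → V} (h : tp 𝔹 u = tp 𝔹 v)
    (a b : J) : u a = u b ↔ v a = v b :=
  iff_of_eq (congrFun (congrFun (congrArg Prod.fst h) a) b)

theorem pf_RZL (hLTP : T_LTP) : T_RZL := by
  classical
  intro τ₁ τ₂ V₁ V₂ 𝔹₁ 𝔹₂ m₁ m₂ lv₁ lv₂ h1 h2 r M₁ M₂ hR1 hR2 X Λ _ lam z y hlam hy hloc
  have hL := hLTP τ₁ τ₂ V₁ V₂ (Fin r) 𝔹₁ 𝔹₂ h2.ar
  -- the first coordinates
  obtain ⟨f₁, hf1, hf2⟩ := hR1 X Λ (fun x x' => min (lam x x') m₁) z (fun a i => (y a i).1)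
    { le := fun x x' => min_le_right _ _
      self := fun x => by
        rw [hlam.self]
        exact min_eq_right (Nat.le_add_right _ _)
      sym := fun x x' => by rw [hlam.sym]
      ult := fun x x' x'' => by
        have := hlam.ult x x' x''
        omega }
    (fun a i j => by
      rw [← llv_min (lv₂ := lv₂) h1.lev, hy])
    (fun U L hU hLc => by
      obtain ⟨f, h3, h4⟩ := hloc U L (hU.trans (le_max_left _ _)) (hLc.trans (le_max_left _ _))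
      refine ⟨fun x => (f x).1, fun x hx x' hx' => ?_, fun a ha => ((hL _ _).1 (h4 a ha)).1⟩
      rw [← llv_min (lv₂ := lv₂) h1.lev]
      exact min_le_min_right _ (h3 x hx x' hx'))
  have hF : ∀ x x', f₁ x = f₁ x' ↔ m₁ ≤ lam x x' := by
    intro x x'
    have h3 := hf1 x x'
    constructor
    · intro h
      rw [h, h1.lev.pl.self] at h3
      omega
    · intro h
      refine h1.lev.eq _ _ ?_
      rw [h3]
      exact min_eq_right h
  -- facts on the labels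
  have hyf : ∀ a i j, m₁ ≤ lam (z a i) (z a j) →
      (y a i).1 = (y a j).1 ∧ lv₂ (y a i).2 (y a j).2 = lam (z a i) (z a j) - m₁ := by
    intro a i j h
    have h3 := hy a i j
    have h4 : (y a i).1 = (y a j).1 := (llv_iff h1.lev h2.lev _ _).1 (by rw [h3]; exact h)
    rw [llv_eq h4] at h3
    exact ⟨h4, by omega⟩
  -- the second coordinates
  have hsec : ∀ v : V₁, ∃ F : {x : X // f₁ x = v} → V₂,
      (∀ x x', lv₂ (F x) (F x') = lam x.1 x'.1 - m₁) ∧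
      ∀ (a : Λ) (κ : Fin r → Fin r) (hκ : ∀ i, f₁ (z a (κ i)) = v), (∀ i, f₁ (z a i) = v → κ i = i) →
        ∀ (i₀ : Fin r), f₁ (z a i₀) = v → ∀ (J : Type) (s : J → Fin r) (hs : ∀ j, f₁ (z a (s j)) = v),
        tp 𝔹₂ (fun j => F ⟨z a (s j), hs j⟩) = tp 𝔹₂ (fun j => (y a (s j)).2) := by
    intro v
    let Λv : Type := {a : Λ // ∃ i, f₁ (z a i) = v}
    let i₀ : Λv → Fin r := fun a => a.2.choose
    have hi₀ : ∀ a : Λv, f₁ (z a.1 (i₀ a)) = v := fun a => a.2.choose_spec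
    let κ : Λv → Fin r → Fin r := fun a i => if f₁ (z a.1 i) = v then i else i₀ a
    have hκ : ∀ a i, f₁ (z a.1 (κ a i)) = v := by
      intro a i
      show f₁ (z a.1 (if f₁ (z a.1 i) = v then i else i₀ a)) = v
      by_cases h : f₁ (z a.1 i) = v
      · rw [if_pos h]
        exact h
      · rw [if_neg h]
        exact hi₀ a
    have hκ2 : ∀ a i, f₁ (z a.1 i) = v → κ a i = i := fun a i h => if_pos h
    have hlev : ∀ x x' : X, f₁ x = v → f₁ x' = v → m₁ ≤ lam x x' := fun x x' h h' =>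
      (hF x x').1 (h.trans h'.symm)
    obtain ⟨F, hF1, hF2⟩ := hR2 {x : X // f₁ x = v} Λv (fun x x' => lam x.1 x'.1 - m₁)
      (fun a i => ⟨z a.1 (κ a i), hκ a i⟩) (fun a i => (y a.1 (κ a i)).2)
      { le := fun x x' => by
          have := hlam.le x.1 x'.1
          omega
        self := fun x => by
          rw [hlam.self]
          omega
        sym := fun x x' => by rw [hlam.sym]
        ult := fun x x' x'' => by
          have := hlam.ult x.1 x'.1 x''.1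
          omega }
      (fun a i j => (hyf a.1 _ _ (hlev _ _ (hκ a i) (hκ a j))).2)
      (fun U L hU hLc => by
        obtain ⟨f, h3, h4⟩ := hloc (U.image Subtype.val) (L.image Subtype.val)
          (Finset.card_image_le.trans (hU.trans (le_max_right _ _)))
          (Finset.card_image_le.trans (hLc.trans (le_max_right _ _)))
        refine ⟨fun x => (f x.1).2, fun x hx x' hx' => ?_, fun a ha => ?_⟩
        · have h5 := h3 x.1 (Finset.mem_image_of_mem _ hx) x'.1 (Finset.mem_image_of_mem _ hx')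
          have h6 := hlev x.1 x'.1 x.2 x'.2
          have h7 : (f x.1).1 = (f x'.1).1 := (llv_iff h1.lev h2.lev _ _).1 (h6.trans h5)
          rw [llv_eq h7] at h5
          show lam x.1 x'.1 - m₁ ≤ lv₂ (f x.1).2 (f x'.1).2
          omega
        · obtain ⟨h5, h6⟩ := (hL _ _).1 (h4 a.1 (Finset.mem_image_of_mem _ ha))
          have h7 : ∀ i, (f (z a.1 (κ a i))).1 = (f (z a.1 (i₀ a))).1 := fun i =>
            (eq_tp h5 _ _).2 (hyf a.1 _ _ (hlev _ _ (hκ a i) (hi₀ a))).1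
          exact Pool.Agent.H57.CN.tp_comp (h6 (i₀ a)) (fun i : Fin r =>
            (⟨κ a i, h7 i⟩ : {j : Fin r // (f (z a.1 j)).1 = (f (z a.1 (i₀ a))).1})))
    refine ⟨F, hF1, fun a κ' hκ' hκ'2 i₁ hi₁ J s hs => ?_⟩
    have h3 := Pool.Agent.H57.CN.tp_comp (hF2 ⟨a, i₁, hi₁⟩) s
    have h4 : ∀ j, κ ⟨a, i₁, hi₁⟩ (s j) = s j := fun j => hκ2 ⟨a, i₁, hi₁⟩ (s j) (hs j)
    have h5 : (fun j => F ⟨z a (s j), hs j⟩) =
        fun j => F ⟨z a (κ ⟨a, i₁, hi₁⟩ (s j)), hκ ⟨a, i₁, hi₁⟩ (s j)⟩ := by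
      funext j
      congr 2
      rw [h4 j]
    have h6 : (fun j => (y a (s j)).2) = fun j => (y a (κ ⟨a, i₁, hi₁⟩ (s j))).2 := by
      funext j
      rw [h4 j]
    rw [h5, h6]
    exact h3
  choose F hF1 hF2 using hsec
  have hFv : ∀ (x : X) (v : V₁) (h : f₁ x = v), F (f₁ x) ⟨x, rfl⟩ = F v ⟨x, h⟩ := by
    intro x v h
    subst h
    rfl
  refine ⟨fun x => (f₁ x, F (f₁ x) ⟨x, rfl⟩), fun x x' => ?_, fun a => (hL _ _).2 ⟨hf2 a, ?_⟩⟩
  · by_cases h : f₁ x = f₁ x'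
    · rw [llv_eq (x := (f₁ x, F (f₁ x) ⟨x, rfl⟩)) (y := (f₁ x', F (f₁ x') ⟨x', rfl⟩)) h]
      show m₁ + lv₂ (F (f₁ x) ⟨x, rfl⟩) (F (f₁ x') ⟨x', rfl⟩) = lam x x'
      rw [hFv x (f₁ x') h, hF1]
      have := (hF x x').1 h
      show m₁ + (lam x x' - m₁) = lam x x'
      omega
    · rw [llv_ne (x := (f₁ x, F (f₁ x) ⟨x, rfl⟩)) (y := (f₁ x', F (f₁ x') ⟨x', rfl⟩)) h]
      show lv₁ (f₁ x) (f₁ x') = lam x x'
      rw [hf1]
      have := mt (hF x x').2 h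
      exact min_eq_left (by omega)
  · intro a₀
    show tp 𝔹₂ (fun j : {j : Fin r // f₁ (z a j) = f₁ (z a a₀)} => F (f₁ (z a j)) ⟨z a j, rfl⟩) =
      tp 𝔹₂ (fun j : {j : Fin r // f₁ (z a j) = f₁ (z a a₀)} => (y a j).2)
    have h3 : (fun j : {j : Fin r // f₁ (z a j) = f₁ (z a a₀)} => F (f₁ (z a j)) ⟨z a j, rfl⟩) =
        fun j : {j : Fin r // f₁ (z a j) = f₁ (z a a₀)} =>
          F (f₁ (z a a₀)) ⟨z a j.1, j.2⟩ := funext fun j => hFv _ _ j.2
    rw [h3]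
    exact hF2 (f₁ (z a a₀)) a (fun i => if f₁ (z a i) = f₁ (z a a₀) then i else a₀)
      (fun i => by
        by_cases h : f₁ (z a i) = f₁ (z a a₀)
        · rw [if_pos h]
          exact h
        · rw [if_neg h])
      (fun i h => if_pos h) a₀ rfl {j : Fin r // f₁ (z a j) = f₁ (z a a₀)} Subtype.val
      (fun j => j.2)

end Pool.Agent.H73.CM
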